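import Mathlib
import Pool.Agent.Y734.I.StmsB
import Pool.Agent.Y734.I.LG.Main

/-!
# Job LGB: the norms of the values of three further linear forms
-/

set_option autoImplicit false

namespace Pool.Agent.Y734.I.LGB

open NumberField IsDedekindDomain MvPolynomial Pool.Agent.Y734 Pool.Agent.Y734.BR
open Pool.Agent.Y734.I.LG (exists_denom exists_fin sum_le log_formula sup_pos' inf_pos
  logHeight_eq' weil_eq int_le_one nat_le_one nat_lt_one le_of_one_lt padic_unit)

/-- outside a finite set of primes, the values of the linear forms have maximal absolute value -/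
theorem lgv (N q : ℕ) (H : Fin q → Fin (N + 1) → ℚ) (S : Finset ℕ) (hS : ∀ p ∈ S, p.Prime)
    (r : ℕ) (C : ℝ) : ∃ S' : Finset ℕ, (∀ p ∈ S', p.Prime) ∧
      ∀ (L : Type) [Field L] [NumberField L], Module.finrank ℚ L ≤ r →
        ∀ x : Fin (N + 1) → L, x ≠ 0 → aeval x (∏ i, lin (n := N) (H i)) ≠ 0 →
          (q : ℝ) * height (n := N) x ≤ proximity (n := N) S (∏ i, lin (H i)) q x + C →
          ∀ p : ℕ, p.Prime → p ∉ S' → ∀ v ∈ Ab L p, ∀ i : Fin q,
            FinitePlace.mk v (aeval x (lin (n := N) (H i))) = ⨆ j, FinitePlace.mk v (x j) := by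
  classical
  obtain ⟨m, hm0, hm⟩ := exists_denom H
  obtain ⟨K, hK⟩ : ∃ K : ℝ, K = |C| * r + q * r * Real.log m := ⟨_, rfl⟩
  have hm1 : (1 : ℝ) ≤ m := by exact_mod_cast Nat.one_le_iff_ne_zero.2 hm0
  have hlogm : 0 ≤ Real.log m := Real.log_nonneg hm1
  have hK0 : 0 ≤ K := by rw [hK]; positivity
  refine ⟨(S ∪ (Finset.range (⌈Real.exp K⌉₊ + 1)).filter Nat.Prime) ∪ m.primeFactors, ?_, ?_⟩
  · intro p hp
    rcases Finset.mem_union.1 hp with h | h
    · rcases Finset.mem_union.1 h with h | h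
      · exact hS p h
      · exact (Finset.mem_filter.1 h).2
    · exact Nat.prime_of_mem_primeFactors h
  intro L _ _ hr x hx hy hineq p hp hpS'
  have hpS : p ∉ S ∪ (Finset.range (⌈Real.exp K⌉₊ + 1)).filter Nat.Prime := fun h =>
    hpS' (Finset.mem_union_left _ h)
  have hpm : ¬ p ∣ m := fun h =>
    hpS' (Finset.mem_union_right _ (Nat.mem_primeFactors.2 ⟨hp, h, hm0⟩))
  -- the prime `p`
  have hpS1 : p ∉ S := fun h => hpS (Finset.mem_union_left _ h)
  have hpK : K < Real.log p := by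
    have h1 : ¬ p < ⌈Real.exp K⌉₊ + 1 := fun h =>
      hpS (Finset.mem_union_right _ (Finset.mem_filter.2 ⟨Finset.mem_range.2 h, hp⟩))
    have h2 : ⌈Real.exp K⌉₊ < p := by omega
    have h3 : Real.exp K < p := lt_of_le_of_lt (Nat.le_ceil _) (by exact_mod_cast h2)
    rwa [Real.lt_log_iff_exp_lt (by exact_mod_cast hp.pos)]
  -- the values
  obtain ⟨z, hz⟩ : ∃ z : Fin q → L, z = fun i => aeval x (lin (n := N) (H i)) := ⟨_, rfl⟩
  have hyz : aeval x (∏ i, lin (n := N) (H i)) = ∏ i, z i := by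
    rw [map_prod, hz]
  have hz0 : ∀ i, z i ≠ 0 := by
    intro i hi
    apply hy
    rw [hyz]
    exact Finset.prod_eq_zero (Finset.mem_univ i) hi
  have hmL : (m : L) ≠ 0 := by exact_mod_cast hm0
  -- the finite set of places
  obtain ⟨E, hE⟩ := exists_fin (fun a : Unit ⊕ (Fin q ⊕ Fin (N + 1)) =>
    Sum.elim (fun _ => (m : L)) (Sum.elim z x) a)
  have hEm : ∀ v ∉ E, FinitePlace.mk v (m : L) = 1 := fun v hv => hE v hv (Sum.inl ()) hmL
  have hEz : ∀ v ∉ E, ∀ i, FinitePlace.mk v (z i) = 1 := fun v hv i =>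
    hE v hv (Sum.inr (Sum.inl i)) (hz0 i)
  have hEx : ∀ v ∉ E, ∀ j, x j ≠ 0 → FinitePlace.mk v (x j) = 1 := fun v hv j hj =>
    hE v hv (Sum.inr (Sum.inr j)) hj
  obtain ⟨M, hM⟩ : ∃ M : HeightOneSpectrum (𝓞 L) → ℝ,
      M = fun v => ⨆ j, FinitePlace.mk v (x j) := ⟨_, rfl⟩
  have hMv : ∀ v, M v = ⨆ j, FinitePlace.mk v (x j) := fun v => by rw [hM]
  have hfp : ∀ (v : HeightOneSpectrum (𝓞 L)) (y : L), y ≠ 0 → 0 < FinitePlace.mk v y :=
    fun v y hy => FinitePlace.pos_iff.2 hy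
  have hM0 : ∀ v, 0 < M v := fun v => by
    rw [hMv]
    exact sup_pos' (fun y => FinitePlace.mk v y) (hfp v) hx
  have hMle : ∀ v j, FinitePlace.mk v (x j) ≤ M v := fun v j => by
    rw [hMv]
    exact Finite.le_ciSup_of_le (f := fun j => FinitePlace.mk v (x j)) j le_rfl
  have hMex : ∀ v, ∃ j, FinitePlace.mk v (x j) = M v := fun v => by
    rw [hMv]
    exact exists_eq_ciSup_of_finite (f := fun j => FinitePlace.mk v (x j))
  have hEM : ∀ v ∉ E, M v = 1 := by
    intro v hv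
    apply le_antisymm
    · obtain ⟨j, hj⟩ := hMex v
      rw [← hj]
      by_cases hxj : x j = 0
      · rw [hxj, map_zero]
        exact zero_le_one
      · exact (hEx v hv j hxj).le
    · obtain ⟨j, hj⟩ := Function.ne_iff.1 hx
      rw [← hEx v hv j hj]
      exact hMle v j
  have hEy : ∀ v ∉ E, FinitePlace.mk v (∏ i, z i) = 1 := by
    intro v hv
    rw [map_prod]
    exact Finset.prod_eq_one fun i _ => hEz v hv i
  rw [hyz] at hy
  -- the main inequality
  have hn : (0 : ℝ) < Module.finrank ℚ L := by exact_mod_cast Module.finrank_pos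
  have hnr : (Module.finrank ℚ L : ℝ) ≤ r := by exact_mod_cast hr
  obtain ⟨ES, hES⟩ : ∃ ES : Finset (HeightOneSpectrum (𝓞 L)),
      ES = E.filter (fun v => ∃ p ∈ S, (p : 𝓞 L) ∈ v.asIdeal) := ⟨_, rfl⟩
  have hlogy : ∀ v : HeightOneSpectrum (𝓞 L), Real.log (FinitePlace.mk v (∏ i, z i)) =
      ∑ i, Real.log (FinitePlace.mk v (z i)) := fun v => by
    rw [map_prod, Real.log_prod (fun i _ => (hfp v _ (hz0 i)).ne')]
  have hmain : ∑ v ∈ E \ ES, (q * Real.log (M v) - Real.log (FinitePlace.mk v (∏ i, z i))) ≤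
      C * Module.finrank ℚ L := by
    have h1 := log_formula hy E hEy
    have h2 := logHeight_eq' hx E (fun v hv => by rw [← hMv]; exact hEM v hv)
    have h3 : ∀ w : InfinitePlace L, weil w (∏ i, lin (n := N) (H i)) q x =
        q * Real.log (⨆ j, w (x j)) - Real.log (w (∏ i, z i)) := by
      intro w
      rw [← hyz] at hy ⊢
      exact weil_eq (fun y => w y) (inf_pos w) _ q hx hy
    have h4 : ∀ v : HeightOneSpectrum (𝓞 L),
        weil (FinitePlace.mk v) (∏ i, lin (n := N) (H i)) q x =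
        q * Real.log (M v) - Real.log (FinitePlace.mk v (∏ i, z i)) := by
      intro v
      rw [← hyz] at hy ⊢
      rw [hMv]
      exact weil_eq (fun y => FinitePlace.mk v y) (hfp v) _ q hx hy
    have h5 : (∑ᶠ v ∈ {v : HeightOneSpectrum (𝓞 L) | ∃ p ∈ S, (p : 𝓞 L) ∈ v.asIdeal},
        weil (FinitePlace.mk v) (∏ i, lin (n := N) (H i)) q x) =
        ∑ v ∈ ES, (q * Real.log (M v) - Real.log (FinitePlace.mk v (∏ i, z i))) := by
      rw [finsum_mem_eq_sum_of_inter_support_eq (t := ES)]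
      · exact Finset.sum_congr rfl fun v _ => h4 v
      · ext v
        simp only [Set.mem_inter_iff, Set.mem_ofPred_eq, Function.mem_support, hES,
          Finset.coe_filter]
        constructor
        · rintro ⟨h6, h7⟩
          refine ⟨⟨?_, h6⟩, h7⟩
          by_contra h8
          apply h7
          rw [h4, hEM v h8, hEy v h8, Real.log_one, mul_zero, sub_zero]
        · rintro ⟨⟨-, h6⟩, h7⟩
          exact ⟨h6, h7⟩
    rw [height, proximity, h5] at hineq
    have h6 : ∑ w : InfinitePlace L, (w.mult : ℝ) * weil w (∏ i, lin (n := N) (H i)) q x =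
        q * (∑ w : InfinitePlace L, (w.mult : ℝ) * Real.log (⨆ j, w (x j))) -
          ∑ w : InfinitePlace L, (w.mult : ℝ) * Real.log (w (∏ i, z i)) := by
      rw [Finset.mul_sum, ← Finset.sum_sub_distrib]
      refine Finset.sum_congr rfl fun w _ => ?_
      rw [h3]
      ring
    rw [h6] at hineq
    have h7 : (q : ℝ) * Height.logHeight x ≤
        (q * (∑ w : InfinitePlace L, (w.mult : ℝ) * Real.log (⨆ j, w (x j))) -
          ∑ w : InfinitePlace L, (w.mult : ℝ) * Real.log (w (∏ i, z i))) +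
        ∑ v ∈ ES, (q * Real.log (M v) - Real.log (FinitePlace.mk v (∏ i, z i))) +
        C * Module.finrank ℚ L := by
      have h8 := mul_le_mul_of_nonneg_right hineq hn.le
      rw [add_mul, div_mul_cancel₀ _ hn.ne', mul_assoc, div_mul_cancel₀ _ hn.ne'] at h8
      exact h8
    have h8 : ∑ v ∈ E \ ES, (q * Real.log (M v) - Real.log (FinitePlace.mk v (∏ i, z i))) +
        ∑ v ∈ ES, (q * Real.log (M v) - Real.log (FinitePlace.mk v (∏ i, z i))) =
        q * (∑ v ∈ E, Real.log (M v)) - ∑ v ∈ E, Real.log (FinitePlace.mk v (∏ i, z i)) := by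
      rw [Finset.sum_sdiff (by rw [hES]; exact Finset.filter_subset _ _), Finset.mul_sum,
        ← Finset.sum_sub_distrib]
    simp only [← hMv] at h2
    rw [h2] at h7
    linarith
  -- the terms
  obtain ⟨τ, hτ⟩ : ∃ τ : HeightOneSpectrum (𝓞 L) → Fin q → ℝ, τ = fun v i =>
    Real.log (M v) - Real.log (FinitePlace.mk v (m : L)) -
      Real.log (FinitePlace.mk v (z i)) := ⟨_, rfl⟩
  have hτv : ∀ v i, τ v i = Real.log (M v) - Real.log (FinitePlace.mk v (m : L)) -
      Real.log (FinitePlace.mk v (z i)) := fun v i => by rw [hτ]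
  have hle : ∀ v i, FinitePlace.mk v (m : L) * FinitePlace.mk v (z i) ≤ M v := by
    intro v i
    rw [← map_mul]
    have h1 : (m : L) * z i = ∑ j, algebraMap ℚ L ((m : ℚ) * H i j) * x j := by
      rw [hz]
      dsimp only
      rw [LG.aeval_lin, Finset.mul_sum]
      refine Finset.sum_congr rfl fun j _ => ?_
      rw [map_mul, map_natCast, mul_assoc]
    rw [h1]
    refine sum_le (FinitePlace.mk v) _ _ (hM0 v).le fun j _ => ?_
    obtain ⟨a, ha⟩ := hm i j
    rw [ha, map_intCast, map_mul]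
    calc FinitePlace.mk v (a : L) * FinitePlace.mk v (x j) ≤ 1 * FinitePlace.mk v (x j) :=
          mul_le_mul_of_nonneg_right (int_le_one v a) (apply_nonneg _ _)
      _ ≤ M v := by
          rw [one_mul]
          exact hMle v j
  have hτ0 : ∀ v i, 0 ≤ τ v i := by
    intro v i
    have h1 := Real.log_le_log (mul_pos (hfp v _ hmL) (hfp v _ (hz0 i))) (hle v i)
    rw [Real.log_mul (hfp v _ hmL).ne' (hfp v _ (hz0 i)).ne'] at h1
    rw [hτv]
    linarith
  have hlm : ∀ v : HeightOneSpectrum (𝓞 L), Real.log (FinitePlace.mk v (m : L)) ≤ 0 := fun v =>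
    Real.log_nonpos (apply_nonneg _ _) (nat_le_one v m)
  have hsum : ∑ v ∈ E \ ES, ∑ i, τ v i ≤ K := by
    have h1 : ∀ v, ∑ i, τ v i = (q * Real.log (M v) - Real.log (FinitePlace.mk v (∏ i, z i))) +
        q * (-Real.log (FinitePlace.mk v (m : L))) := by
      intro v
      rw [hlogy]
      simp only [hτv, Finset.sum_sub_distrib, Finset.sum_const, Finset.card_univ,
        Fintype.card_fin, nsmul_eq_mul]
      ring
    rw [Finset.sum_congr rfl fun v _ => h1 v, Finset.sum_add_distrib, ← Finset.mul_sum]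
    have h2 : ∑ v ∈ E \ ES, -Real.log (FinitePlace.mk v (m : L)) ≤
        ∑ v ∈ E, -Real.log (FinitePlace.mk v (m : L)) :=
      Finset.sum_le_sum_of_subset_of_nonneg Finset.sdiff_subset
        fun v _ _ => neg_nonneg.2 (hlm v)
    have h3 : ∑ v ∈ E, -Real.log (FinitePlace.mk v (m : L)) =
        Module.finrank ℚ L * Real.log m := by
      have h4 := log_formula hmL E hEm
      have h5 : ∑ w : InfinitePlace L, (w.mult : ℝ) * Real.log (w (m : L)) =
          Module.finrank ℚ L * Real.log m := by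
        have h6 : ∀ w : InfinitePlace L, w (m : L) = m := fun w => by simp
        simp only [h6]
        rw [← Finset.sum_mul, ← InfinitePlace.sum_mult_eq]
        push_cast
        rfl
      rw [Finset.sum_neg_distrib]
      linarith
    rw [h3] at h2
    have h4 : (q : ℝ) * ∑ v ∈ E \ ES, -Real.log (FinitePlace.mk v (m : L)) ≤
        q * (r * Real.log m) :=
      mul_le_mul_of_nonneg_left (h2.trans (mul_le_mul_of_nonneg_right hnr hlogm))
        (Nat.cast_nonneg _)
    have h5 : C * Module.finrank ℚ L ≤ |C| * r :=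
      (mul_le_mul_of_nonneg_right (le_abs_self C) hn.le).trans
        (mul_le_mul_of_nonneg_left hnr (abs_nonneg C))
    rw [hK]
    linarith
  have hτK : ∀ v ∈ Ab L p, ∀ i, τ v i ≤ K := by
    intro v hv i
    by_cases hvE : v ∈ E
    · have hvS : v ∉ ES := by
        rw [hES, Finset.mem_filter]
        rintro ⟨-, p', hp', hvp'⟩
        exact hpS1 ((ab_disj hp (hS p' hp') hv hvp') ▸ hp')
      calc τ v i ≤ ∑ i, τ v i :=
            Finset.single_le_sum (f := fun i => τ v i) (fun i _ => hτ0 v i) (Finset.mem_univ i)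
        _ ≤ ∑ v ∈ E \ ES, ∑ i, τ v i :=
            Finset.single_le_sum (f := fun v => ∑ i, τ v i)
              (fun v _ => Finset.sum_nonneg fun i _ => hτ0 v i)
              (Finset.mem_sdiff.2 ⟨hvE, hvS⟩)
        _ ≤ K := hsum
    · rw [hτv, hEM v hvE, hEm v hvE, hEz v hvE i, Real.log_one, sub_zero, sub_zero]
      exact hK0
  -- all terms above `p` are zero
  have hval : ∀ v ∈ Ab L p, ∀ i, FinitePlace.mk v (m : L) * FinitePlace.mk v (z i) = M v := by
    intro v hv i
    by_contra hne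
    have hlt := lt_of_le_of_ne (hle v i) hne
    obtain ⟨j, hj⟩ := hMex v
    have hpos : 0 < FinitePlace.mk v (m : L) * FinitePlace.mk v (z i) :=
      mul_pos (hfp v _ hmL) (hfp v _ (hz0 i))
    have h1 : FinitePlace.mk v (x j / ((m : L) * z i)) =
        M v / (FinitePlace.mk v (m : L) * FinitePlace.mk v (z i)) := by
      rw [map_div₀, map_mul, hj]
    have h2 : 1 < FinitePlace.mk v (x j / ((m : L) * z i)) := by
      rw [h1, one_lt_div hpos]
      exact hlt
    have h3 := le_of_one_lt hp hv h2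
    have h4 : Real.log p ≤ τ v i := by
      have h5 : τ v i = Real.log (M v / (FinitePlace.mk v (m : L) * FinitePlace.mk v (z i))) := by
        rw [hτv, Real.log_div (hM0 v).ne' hpos.ne',
          Real.log_mul (hfp v _ hmL).ne' (hfp v _ (hz0 i)).ne']
        ring
      rw [h5, ← h1]
      exact Real.log_le_log (by exact_mod_cast hp.pos) h3
    exact absurd (h4.trans (hτK v hv i)) (not_le.2 hpK)
  intro v hv i
  have h1 := hval v hv i
  have h2 : FinitePlace.mk v (m : L) = 1 := by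
    have h3 : FinitePlace.mk v ((m : ℤ) : L) = 1 := by
      rw [mk_eq_one, int_mem hp hv]
      exact_mod_cast hpm
    rwa [Int.cast_natCast] at h3
  rw [h2, one_mul, hMv, hz] at h1
  exact h1

section

variable {L : Type} [Field L] [NumberField L]

theorem rat_le_one {p : ℕ} (hp : p.Prime) {v : HeightOneSpectrum (𝓞 L)} (hv : v ∈ Ab L p) {a : ℚ}
    (h : ¬ p ∣ a.den) : FinitePlace.mk v (algebraMap ℚ L a) ≤ 1 := by
  have h1 : FinitePlace.mk v ((a.den : ℤ) : L) = 1 := by
    rw [mk_eq_one, int_mem hp hv]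
    exact_mod_cast h
  have h2 : FinitePlace.mk v (algebraMap ℚ L a) * FinitePlace.mk v ((a.den : ℤ) : L) =
      FinitePlace.mk v ((a.num : ℤ) : L) := by
    rw [← map_mul]
    congr 1
    have h3 := Rat.mul_den_eq_num a
    have h4 := congrArg (algebraMap ℚ L) h3
    rw [map_mul, map_natCast, map_intCast] at h4
    rw [Int.cast_natCast]
    exact h4
  rw [h1, mul_one] at h2
  rw [h2]
  exact int_le_one v a.num

theorem ab_fin {p : ℕ} (hp : p.Prime) : (Ab L p).Finite := by
  have hp0 : (p : L) ≠ 0 := by exact_mod_cast hp.ne_zero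
  obtain ⟨E, hE⟩ := exists_fin (fun _ : Unit => (p : L))
  refine E.finite_toSet.subset fun v hv => ?_
  by_contra h
  exact absurd (hE v h () hp0) (nat_lt_one hv).ne

/-- there are at most `[L : ℚ]` primes above `p` -/
theorem ab_card {p : ℕ} (hp : p.Prime) :
    (ab_fin (L := L) hp).toFinset.card ≤ Module.finrank ℚ L := by
  have hp0 : (p : L) ≠ 0 := by exact_mod_cast hp.ne_zero
  have hpR : (0 : ℝ) < p := by exact_mod_cast hp.pos
  have hpR1 : (1 : ℝ) < p := by exact_mod_cast hp.one_lt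
  have h1 := prod_p hp (ab_fin (L := L) hp)
  have h2 : ∏ v ∈ (ab_fin (L := L) hp).toFinset, FinitePlace.mk v (p : L) ≤
      ∏ v ∈ (ab_fin (L := L) hp).toFinset, (p : ℝ)⁻¹ := by
    refine Finset.prod_le_prod (fun v _ => apply_nonneg _ _) fun v hv => ?_
    rw [Set.Finite.mem_toFinset] at hv
    have h5 : 0 < FinitePlace.mk v (p : L) := FinitePlace.pos_iff.2 hp0
    have h3 : 1 < FinitePlace.mk v ((p : L)⁻¹) := by
      rw [map_inv₀]
      exact (one_lt_inv₀ h5).2 (nat_lt_one hv)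
    have h4 := le_of_one_lt hp hv h3
    rw [map_inv₀] at h4
    exact (le_inv_comm₀ hpR h5).1 h4
  rw [h1, Finset.prod_const, inv_pow] at h2
  have h3 : (p : ℝ) ^ (ab_fin (L := L) hp).toFinset.card ≤ (p : ℝ) ^ Module.finrank ℚ L :=
    (inv_le_inv₀ (pow_pos hpR _) (pow_pos hpR _)).1 h2
  exact (pow_le_pow_iff_right₀ hpR1).1 h3

/-- a linear form with coefficients which are integral above `p` -/
theorem lin_le {N p : ℕ} (hp : p.Prime) {v : HeightOneSpectrum (𝓞 L)} (hv : v ∈ Ab L p)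
    (l : Fin (N + 1) → ℚ) (h : ∀ j, ¬ p ∣ (l j).den) (x : Fin (N + 1) → L) :
    FinitePlace.mk v (aeval x (lin (n := N) l)) ≤ ⨆ j, FinitePlace.mk v (x j) := by
  have hM : ∀ j, FinitePlace.mk v (x j) ≤ ⨆ j, FinitePlace.mk v (x j) := fun j =>
    Finite.le_ciSup_of_le (f := fun j => FinitePlace.mk v (x j)) j le_rfl
  rw [LG.aeval_lin]
  refine sum_le (FinitePlace.mk v) _ _ ((apply_nonneg _ _).trans (hM 0)) fun j _ => ?_
  rw [map_mul]
  calc FinitePlace.mk v (algebraMap ℚ L (l j)) * FinitePlace.mk v (x j)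
      ≤ 1 * FinitePlace.mk v (x j) :=
        mul_le_mul_of_nonneg_right (rat_le_one hp hv (h j)) (apply_nonneg _ _)
    _ ≤ _ := by
        rw [one_mul]
        exact hM j

/-- a combination of two forms -/
theorem pair_eq {N p : ℕ} (hp : p.Prime) {v : HeightOneSpectrum (𝓞 L)} (hv : v ∈ Ab L p)
    {h l l' : Fin (N + 1) → ℚ} {a b : ℚ} (hab : a • l + b • l' = h) (ha : ¬ p ∣ a.den)
    (hb : ¬ p ∣ b.den) (x : Fin (N + 1) → L) {M : ℝ}
    (hM : FinitePlace.mk v (aeval x (lin (n := N) h)) = M)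
    (hl : FinitePlace.mk v (aeval x (lin (n := N) l)) ≤ M)
    (hl' : FinitePlace.mk v (aeval x (lin (n := N) l')) ≤ M) :
    FinitePlace.mk v (aeval x (lin (n := N) l)) = M ∨
      FinitePlace.mk v (aeval x (lin (n := N) l')) = M := by
  have h1 : aeval x (lin (n := N) h) = algebraMap ℚ L a * aeval x (lin (n := N) l) +
      algebraMap ℚ L b * aeval x (lin (n := N) l') := by
    rw [LG.aeval_lin, LG.aeval_lin, LG.aeval_lin, ← hab, Finset.mul_sum, Finset.mul_sum,
      ← Finset.sum_add_distrib]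
    refine Finset.sum_congr rfl fun j _ => ?_
    rw [Pi.add_apply, Pi.smul_apply, Pi.smul_apply, smul_eq_mul, smul_eq_mul, map_add, map_mul,
      map_mul]
    ring
  have h2 : M ≤ max (FinitePlace.mk v (aeval x (lin (n := N) l)))
      (FinitePlace.mk v (aeval x (lin (n := N) l'))) := by
    rw [← hM, h1]
    refine (FinitePlace.add_le (FinitePlace.mk v) _ _).trans (max_le_max ?_ ?_)
    · rw [map_mul]
      exact mul_le_of_le_one_left (apply_nonneg _ _) (rat_le_one hp hv ha)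
    · rw [map_mul]
      exact mul_le_of_le_one_left (apply_nonneg _ _) (rat_le_one hp hv hb)
  rcases le_max_iff.1 h2 with h3 | h3
  · exact Or.inl (le_antisymm hl h3)
  · exact Or.inr (le_antisymm hl' h3)

end

theorem val_zero {p : ℕ} (hp : p.Prime) {a : ℚ} (h : ¬ p ∣ a.num.natAbs) (h' : ¬ p ∣ a.den) :
    padicValRat p a = 0 := by
  rw [padicValRat, padicValInt, padicValNat.eq_zero_of_not_dvd h,
    padicValNat.eq_zero_of_not_dvd h']
  simp

theorem three (A : Fin 3 → Prop) (h₀ : A 1 ∨ A 2) (h₁ : A 2 ∨ A 0) (h₂ : A 0 ∨ A 1)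
    (i j : Fin 3) (hij : i ≠ j) (hi : ¬ A i) (hj : ¬ A j) : False := by
  fin_cases i <;> fin_cases j <;> simp_all

theorem lgb : LgbStmt := by
  classical
  intro q H l _ κ hκ i₀ i₁ i₂ h₀ h₁ h₂ S hS C
  obtain ⟨S₁, hS₁, hval⟩ := lgv 2 q H S hS 2 C
  obtain ⟨a₀, b₀, hab₀⟩ := Submodule.mem_span_pair.1 h₀
  obtain ⟨a₁, b₁, hab₁⟩ := Submodule.mem_span_pair.1 h₁
  obtain ⟨a₂, b₂, hab₂⟩ := Submodule.mem_span_pair.1 h₂
  obtain ⟨D, hD⟩ : ∃ D : ℕ, D = a₀.den * b₀.den * (a₁.den * b₁.den) * (a₂.den * b₂.den) *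
      (∏ i, ∏ j, (l i j).den) * (∏ i, (κ i).den) * (∏ i, (κ i).num.natAbs) := ⟨_, rfl⟩
  have hD0 : D ≠ 0 := by
    rw [hD]
    have h3 : (∏ i, ∏ j, (l i j).den) ≠ 0 :=
      Finset.prod_ne_zero_iff.2 fun i _ => Finset.prod_ne_zero_iff.2 fun j _ => (l i j).den_nz
    have h4 : (∏ i, (κ i).den) ≠ 0 := Finset.prod_ne_zero_iff.2 fun i _ => (κ i).den_nz
    have h5 : (∏ i, (κ i).num.natAbs) ≠ 0 := Finset.prod_ne_zero_iff.2 fun i _ =>
      Int.natAbs_ne_zero.2 (Rat.num_ne_zero.2 (hκ i))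
    have := a₀.den_nz
    have := b₀.den_nz
    have := a₁.den_nz
    have := b₁.den_nz
    have := a₂.den_nz
    have := b₂.den_nz
    positivity
  refine ⟨S₁ ∪ D.primeFactors, ?_, ?_⟩
  · intro p hp
    rcases Finset.mem_union.1 hp with h | h
    · exact hS₁ p h
    · exact Nat.prime_of_mem_primeFactors h
  intro L _ _ hr x hx hn hprop i j p hp hpS
  have : Fact p.Prime := ⟨hp⟩
  have hp1 : p ∉ S₁ := fun h => hpS (Finset.mem_union_left _ h)
  have hpD : ¬ p ∣ D := fun h => hpS (Finset.mem_union_right _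
    (Nat.mem_primeFactors.2 ⟨hp, h, hD0⟩))
  rw [hD] at hpD
  simp only [hp.dvd_mul, Prime.dvd_finsetProd_iff hp.prime, not_or, not_exists, not_and,
    Finset.mem_univ, forall_true_left] at hpD
  obtain ⟨⟨⟨⟨⟨⟨pa₀, pb₀⟩, pa₁, pb₁⟩, pa₂, pb₂⟩, pl⟩, pκ⟩, pκ'⟩ := hpD
  obtain ⟨z, hz⟩ : ∃ z : Fin 3 → L, z = fun i => aeval x (lin (n := 2) (l i)) := ⟨_, rfl⟩
  obtain ⟨y, hy⟩ : ∃ y : Fin q → L, y = fun i => aeval x (lin (n := 2) (H i)) := ⟨_, rfl⟩
  obtain ⟨M, hM⟩ : ∃ M : HeightOneSpectrum (𝓞 L) → ℝ,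
      M = fun v => ⨆ j, FinitePlace.mk v (x j) := ⟨_, rfl⟩
  have hyM : ∀ v ∈ Ab L p, ∀ i, FinitePlace.mk v (y i) = M v := by
    intro v hv i
    rw [hy, hM]
    exact hval L hr x hx.ne hx.off hx.int p hp hp1 v hv i
  have hzM : ∀ v ∈ Ab L p, ∀ i, FinitePlace.mk v (z i) ≤ M v := by
    intro v hv i
    rw [hz, hM]
    exact lin_le hp hv (l i) (pl i) x
  have hy0 : ∀ i, y i ≠ 0 := by
    intro i hi
    apply hx.off
    rw [map_prod]
    refine Finset.prod_eq_zero (Finset.mem_univ i) ?_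
    rw [hy] at hi
    exact hi
  have hz0 : ∀ i, z i ≠ 0 := by
    intro i
    rw [hz]
    exact Algebra.norm_ne_zero_iff.1 (hn i)
  -- at most one of the three forms is not maximal
  have hpair₀ : ∀ v ∈ Ab L p, FinitePlace.mk v (z 1) = M v ∨ FinitePlace.mk v (z 2) = M v := by
    intro v hv
    have h3 := hyM v hv i₀
    have h4 := hzM v hv 1
    have h5 := hzM v hv 2
    rw [hz] at h4 h5 ⊢
    rw [hy] at h3
    exact pair_eq hp hv hab₀ pa₀ pb₀ x h3 h4 h5
  have hpair₁ : ∀ v ∈ Ab L p, FinitePlace.mk v (z 2) = M v ∨ FinitePlace.mk v (z 0) = M v := by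
    intro v hv
    have h3 := hyM v hv i₁
    have h4 := hzM v hv 2
    have h5 := hzM v hv 0
    rw [hz] at h4 h5 ⊢
    rw [hy] at h3
    exact pair_eq hp hv hab₁ pa₁ pb₁ x h3 h4 h5
  have hpair₂ : ∀ v ∈ Ab L p, FinitePlace.mk v (z 0) = M v ∨ FinitePlace.mk v (z 1) = M v := by
    intro v hv
    have h3 := hyM v hv i₂
    have h4 := hzM v hv 0
    have h5 := hzM v hv 1
    rw [hz] at h4 h5 ⊢
    rw [hy] at h3
    exact pair_eq hp hv hab₂ pa₂ pb₂ x h3 h4 h5
  have hpair : ∀ v ∈ Ab L p, ∀ i j : Fin 3, i ≠ j → FinitePlace.mk v (z i) ≠ M v →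
      FinitePlace.mk v (z j) ≠ M v → False := by
    intro v hv i j hij h3 h4
    exact three (fun i => FinitePlace.mk v (z i) = M v) (hpair₀ v hv) (hpair₁ v hv)
      (hpair₂ v hv) i j hij h3 h4
  obtain ⟨k, hk⟩ : ∃ k : Fin 3, ∀ v ∈ Ab L p, FinitePlace.mk v (z k) = M v := by
    by_contra hcon
    push Not at hcon
    choose v hv hv' using hcon
    have hinj : Function.Injective fun k : Fin 3 =>
        (⟨v k, (Set.Finite.mem_toFinset _).2 (hv k)⟩ : (ab_fin (L := L) hp).toFinset) := by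
      intro i j hij
      by_contra hne
      have h3 : v i = v j := congrArg Subtype.val hij
      exact hpair (v i) (hv i) i j hne (hv' i) (by rw [h3]; exact hv' j)
    have h3 := Fintype.card_le_of_injective _ hinj
    rw [Fintype.card_fin, Fintype.card_coe] at h3
    have h4 := ab_card (L := L) hp
    omega
  -- the good form
  have hunit : ∀ v ∈ Ab L p, FinitePlace.mk v (z k / y j) = 1 := by
    intro v hv
    rw [map_div₀, hk v hv, hyM v hv j, div_self]
    rw [← hyM v hv j]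
    exact (FinitePlace.pos_iff.2 (hy0 j)).ne'
  have h3 := padic_unit (div_ne_zero (hz0 k) (hy0 j)) hp hunit
  have h4 : Algebra.norm ℚ (z k) = Algebra.norm ℚ (z k / y j) * Algebra.norm ℚ (y j) := by
    rw [← map_mul, div_mul_cancel₀ _ (hy0 j)]
  have h5 : padicValRat p (Algebra.norm ℚ (z k)) = padicValRat p (Algebra.norm ℚ (y j)) := by
    rw [h4, padicValRat.mul (Algebra.norm_ne_zero_iff.2 (div_ne_zero (hz0 k) (hy0 j)))
      (Algebra.norm_ne_zero_iff.2 (hy0 j)), h3, zero_add]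
  -- the other forms
  have h6 : κ k * Algebra.norm ℚ (z i) = κ i * Algebra.norm ℚ (z k) := by
    rw [hz]
    exact hprop i k
  have h7 := congrArg (padicValRat p) h6
  rw [padicValRat.mul (hκ k) (Algebra.norm_ne_zero_iff.2 (hz0 i)),
    padicValRat.mul (hκ i) (Algebra.norm_ne_zero_iff.2 (hz0 k)), val_zero hp (pκ' k) (pκ k),
    val_zero hp (pκ' i) (pκ i), zero_add, zero_add, h5] at h7
  rw [hz, hy] at h7
  exact h7

end Pool.Agent.Y734.I.LGB
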